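import Pool.Agent.Y916.Af.All
import Pool.Agent.Y916.Sl.Many

/-!
# Families of G-functions at almost all tuples of algebraic integers of bounded degree

Near a point `x = 0` of the base the periods of a family of varieties over `P¹`, defined over `ℚ`, are polynomials in
`log x`, in G-functions `h_1(x), ..., h_r(x)` with rational coefficients and in constants `Ω` (the periods of the limit
motive). The theorem: for almost all `k`-tuples of algebraic integers `α_j` of degree at most `m`, each in its own number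
field, every polynomial relation of degree `≤ δ` between (all determinations of) the `log α_j` and the numbers
`h_i(1/α_j)`, with coefficients in the `L`-span of `V`, where `V` is any `ℚ`-space of complex numbers of dimension
`≤ D` (for instance spanned by monomials in the constants `Ω`) and `L` any number field of degree `≤ d`, is a consequence
of the specialisations of the functional relations: it vanishes on the whole product of the fibres (connected families),
respectively on all irreducible sets through the point in the product of the fibres. There is no restriction on the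
heights of the relations.

The proof. (1) In a window `ξ - G, ξ - 2G, ..., ξ - GH` around an algebraic integer `ξ` with `|ξ| ≥ (H + 2)^E` and
conjugates at most `|ξ|^4` only a bounded number of points are exceptional: `V`-linear relations between products of
values at `N` exceptional points would generate a space of small dimension (Hilbert functions), but the values of
G-functions at `N` points of the window and powers of the logarithms generate a space of large dimension (values of
G-functions at algebraic points, jointly at the points of the window). (2) Relations between all coordinates on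
irreducible sets, which do not hold on the whole set, give relations between the free coordinates (ultraproducts). (3)
Double counting of the pairs `(ξ, ξ - G u)`.

Parts of the proof by helper547 (dimension of the space of values), helper185 (Hilbert functions), helper356 (rank of
specialisations), helper430 and helper977 (relations on irreducible sets), helper475 (no relations between the free
coordinates), helper340 (fibres of connected families), on the libraries of helper118 and helper120 (families of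
G-functions) and of project AL (helper261, helper419, helper113, helper787, helper708, helper921, helper333).
-/

set_option autoImplicit false

open PowerSeries

namespace Pool.Agent.Results.MP_12eca1_ag.AlgebraicFibres

/-- an integer polynomial as a power series with rational coefficients -/
noncomputable def toQ (P : Polynomial ℤ) : PowerSeries ℚ := ((P.map (Int.castRingHom ℚ) : Polynomial ℚ) : PowerSeries ℚ)

/-- the power series `P(u^e)` -/
noncomputable def atPow (e : ℕ) (P : Polynomial ℤ) : PowerSeries ℂ :=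
  ((Polynomial.expand ℂ e (P.map (Int.castRingHom ℂ)) : Polynomial ℂ) : PowerSeries ℂ)

/-- the matrices `G_s` over `ℤ[x]` with `T^s y^(s) = G_s y` for all solutions `y` of `T y' = A y` -/
noncomputable def iter {r : ℕ} (T : Polynomial ℤ) (A : Fin r → Fin r → Polynomial ℤ) : ℕ → Fin r → Fin r → Polynomial ℤ
  | 0 => fun i j => if i = j then 1 else 0
  | s + 1 => fun i j => T * Polynomial.derivative (iter T A s i j) + ∑ l, iter T A s i l * A l j -
      (s : Polynomial ℤ) * (Polynomial.derivative T * iter T A s i j)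

/-- The system `T y' = A y` has a fundamental matrix of solutions of the form `u^(-M) ∑_n Φ_n(u) (log u)^n` with
`u^e = x` and convergent power series `Φ_n`: the point `0` is an ordinary point or a regular singularity with rational
exponents. -/
def QuasiUnipotent {r : ℕ} (T : Polynomial ℤ) (A : Fin r → Fin r → Polynomial ℤ) : Prop :=
  ∃ (e M : ℕ) (K : ℝ) (Φ : Matrix (Fin r) (Fin r) (Polynomial (PowerSeries ℂ))), 1 ≤ e ∧ Φ.det ≠ 0 ∧
    (∀ i j n m, ‖coeff m ((Φ i j).coeff n)‖ ≤ K ^ (m + 1)) ∧
    ∀ i j n, atPow e T * (X * PowerSeries.derivative ℂ ((Φ i j).coeff n) +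
        ((n : PowerSeries ℂ) + 1) * (Φ i j).coeff (n + 1) - (M : PowerSeries ℂ) * (Φ i j).coeff n) =
      (e : PowerSeries ℂ) * X ^ e * ∑ l, atPow e (A i l) * (Φ l j).coeff n

/-- `h_1, ..., h_r` are G-functions with rational coefficients which solve the differential system `T y' = A y`, with
the conditions of Siegel and Galochkin, and the system is regular with rational exponents at `0`. -/
structure GFamily {r : ℕ} (T : Polynomial ℤ) (A : Fin r → Fin r → Polynomial ℤ) (h : Fin r → PowerSeries ℚ) : Prop where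
  /-- the denominator is not zero -/
  T_ne : T ≠ 0
  /-- the differential equations -/
  ode : ∀ i, toQ T * PowerSeries.derivative ℚ (h i) = ∑ j, toQ (A i j) * h j
  /-- the coefficients have geometric growth -/
  size : ∃ C : ℝ, ∀ i m, |((coeff m (h i) : ℚ) : ℝ)| ≤ C ^ (m + 1)
  /-- the common denominators of the coefficients have geometric growth -/
  den : ∃ C : ℝ, ∀ m : ℕ, ∃ d : ℕ, 0 < d ∧ (d : ℝ) ≤ C ^ (m + 1) ∧ ∀ i, ∀ j ≤ m, ∃ a : ℤ, (d : ℚ) * coeff j (h i) = a
  /-- Galochkin's condition: the common denominators of the matrices `G_s / s!` have geometric growth -/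
  galochkin : ∃ C : ℝ, ∀ m : ℕ, ∃ d : ℕ, 0 < d ∧ (d : ℝ) ≤ C ^ (m + 1) ∧ ∀ s ≤ m, ∀ i j,
    ∃ H : Polynomial ℤ, (d : Polynomial ℤ) * iter T A s i j = (s.factorial : Polynomial ℤ) * H
  /-- the local exponents at `0` are rational and the singularity is regular -/
  regular : QuasiUnipotent T A

section
variable {r k : ℕ} {σ : Type}

/-- The family is connected: every element of the field `ℚ(x, h_1, ..., h_r)` which is algebraic over `ℚ(x)` is in
`ℚ(x)`; the elements of this field are the quotients `A(h) / B(h)`, where `A`, `B` are polynomials over `ℚ[x]`. -/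
def Connected (h : Fin r → PowerSeries ℚ) : Prop := ∀ A B : MvPolynomial (Fin r) (Polynomial ℚ),
  IsAlgebraic (Polynomial ℚ) (algebraMap (PowerSeries ℚ) (FractionRing (PowerSeries ℚ)) (MvPolynomial.aeval h A) /
    algebraMap (PowerSeries ℚ) (FractionRing (PowerSeries ℚ)) (MvPolynomial.aeval h B)) →
  ∃ a b : Polynomial ℚ, b ≠ 0 ∧ algebraMap (PowerSeries ℚ) (FractionRing (PowerSeries ℚ)) (MvPolynomial.aeval h A) /
    algebraMap (PowerSeries ℚ) (FractionRing (PowerSeries ℚ)) (MvPolynomial.aeval h B) =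
      algebraMap (Polynomial ℚ) (FractionRing (PowerSeries ℚ)) a /
        algebraMap (Polynomial ℚ) (FractionRing (PowerSeries ℚ)) b

/-- the algebraic integers of degree at most `m` all of whose conjugates have absolute value at most `T` -/
def integers (m T : ℕ) : Set ℂ :=
  {α | IsIntegral ℤ α ∧ (minpoly ℚ α).natDegree ≤ m ∧ ∀ z : ℂ, Polynomial.aeval z (minpoly ℚ α) = 0 → ‖z‖ ≤ T}

/-- the value `h_i(1 / α)` -/
noncomputable def value (h : Fin r → PowerSeries ℚ) (α : ℂ) (i : Fin r) : ℂ :=
  ∑' n : ℕ, ((coeff n (h i) : ℚ) : ℂ) * (1 / α) ^ n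

/-- the point with the coordinates `ℓ_j` and `h_i(1 / α_j)` -/
noncomputable def point (h : Fin r → PowerSeries ℚ) (α ℓ : Fin k → ℂ) : Fin k × Option (Fin r) → ℂ :=
  fun a => a.2.elim (ℓ a.1) fun i => value h (α a.1) i

/-- the common zeros of the specialisations at `x = 1 / α` of all polynomial relations `R(x, h(x)) = 0` over `ℚ[x]` -/
def Fibre (h : Fin r → PowerSeries ℚ) (α : ℂ) : Set (Fin r → ℂ) :=
  {y | ∀ R : MvPolynomial (Fin r) (Polynomial ℚ), MvPolynomial.aeval h R = 0 →
    MvPolynomial.eval₂ (Polynomial.aeval (1 / α) : Polynomial ℚ →ₐ[ℚ] ℂ).toRingHom y R = 0}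

/-- the product of the fibres at `1 / α_j` and of `k` lines, on which the logarithms vary freely -/
def Fibres (h : Fin r → PowerSeries ℚ) (α : Fin k → ℂ) : Set (Fin k × Option (Fin r) → ℂ) :=
  {y | ∀ j, (fun i => y (j, some i)) ∈ Fibre h (α j)}

/-- sets with irreducible Zariski closure (or empty) -/
def IsIrred (Y : Set (σ → ℂ)) : Prop := ∀ P Q : MvPolynomial σ ℂ,
  (∀ y ∈ Y, MvPolynomial.eval y P * MvPolynomial.eval y Q = 0) →
  (∀ y ∈ Y, MvPolynomial.eval y P = 0) ∨ (∀ y ∈ Y, MvPolynomial.eval y Q = 0)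

/-- every relation `P(z) = 0` of degree `≤ δ` with coefficients in the `L`-span of `V`, where `L` is a number field of
degree `≤ d`, holds on the whole set `Y` -/
def HoldOn (δ d : ℕ) (V : Submodule ℚ ℂ) (z : σ → ℂ) (Y : Set (σ → ℂ)) : Prop :=
  ∀ L : IntermediateField ℚ ℂ, FiniteDimensional ℚ L → Module.finrank ℚ L ≤ d →
  ∀ P : MvPolynomial σ ℂ, P.totalDegree ≤ δ → (∀ s, P.coeff s ∈ Submodule.span L (V : Set ℂ)) →
  MvPolynomial.aeval z P = 0 → ∀ y ∈ Y, MvPolynomial.aeval y P = 0

/-- For all logarithms `ℓ_j` of the `α_j` the relations between the `ℓ_j` and the `h_i(1 / α_j)` hold on every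
irreducible set `Y` through this point in the product of the fibres. -/
def Good (h : Fin r → PowerSeries ℚ) (δ d : ℕ) (V : Submodule ℚ ℂ) (α : Fin k → ℂ) : Prop :=
  ∀ ℓ : Fin k → ℂ, (∀ i, Complex.exp (ℓ i) = α i) → ∀ Y : Set (Fin k × Option (Fin r) → ℂ), IsIrred Y →
    point h α ℓ ∈ Y → Y ⊆ Fibres h α → HoldOn δ d V (point h α ℓ) Y

/-- For all logarithms `ℓ_j` of the `α_j` the relations between the `ℓ_j` and the `h_i(1 / α_j)` hold on the whole
product of the fibres. -/
def VeryGood (h : Fin r → PowerSeries ℚ) (δ d : ℕ) (V : Submodule ℚ ℂ) (α : Fin k → ℂ) : Prop :=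
  ∀ ℓ : Fin k → ℂ, (∀ i, Complex.exp (ℓ i) = α i) → HoldOn δ d V (point h α ℓ) (Fibres h α)

end

theorem iter_eq {r : ℕ} (T : Polynomial ℤ) (A : Fin r → Fin r → Polynomial ℤ) (s : ℕ) :
    iter T A s = Pool.Agent.Y120.GH.itm T A s := by
  induction s with
  | zero => rfl
  | succ s ih =>
    funext i j
    rw [iter, Pool.Agent.Y120.GH.itm, ih]

theorem qu_eq {r : ℕ} {T : Polynomial ℤ} {A : Fin r → Fin r → Polynomial ℤ} (h : QuasiUnipotent T A) :
    Pool.Agent.Y120.GH.QU0 T A := by
  obtain ⟨e, M, K, Φ, he, hdet, hc, heq⟩ := h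
  have he0 : e ≠ 0 := by omega
  refine ⟨e, he0, M, K, Φ, hc, fun i j n => ?_, hdet⟩
  have h1 := heq i j n
  simp only [atPow] at h1
  rw [Pool.Agent.Y120.GH.expand_poly he0]
  simp only [Pool.Agent.Y120.GH.expand_poly he0]
  exact h1

theorem GFamily.fam {r : ℕ} {T : Polynomial ℤ} {A : Fin r → Fin r → Polynomial ℤ} {h : Fin r → PowerSeries ℚ}
    (hG : GFamily T A h) : Pool.Agent.Y916.Af.GFam T A h := by
  refine ⟨hG.T_ne, hG.ode, hG.size, hG.den, ?_, qu_eq hG.regular⟩
  obtain ⟨C, hC⟩ := hG.galochkin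
  refine ⟨C, fun m => ?_⟩
  obtain ⟨d, h1, h2, h3⟩ := hC m
  refine ⟨d, h1, h2, fun s hs i' j' => ?_⟩
  rw [← iter_eq]
  exact h3 s hs i' j'

/-- Let `h = (h_1, ..., h_r)` be a family of G-functions and `m ≥ 1`. For all `k`, `δ`, `d`, `D` there are `c > 0` and
`C` such that for every `ℚ`-subspace `V` of `ℂ` of dimension at most `D` and every `T ≥ 1`, among all `k`-tuples of
algebraic integers of degree at most `m` with conjugates at most `T`, the proportion of those which are not good is at
most `C T^(-c)`; if the family is connected, then the proportion of those which are not very good is at most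
`C T^(-c)`. -/
theorem result {r : ℕ} (T₀ : Polynomial ℤ) (A : Fin r → Fin r → Polynomial ℤ) (h : Fin r → PowerSeries ℚ)
    (hG : GFamily T₀ A h) (m : ℕ) (hm : 1 ≤ m) (k δ d D : ℕ) :
    ∃ c : ℝ, 0 < c ∧ ∃ C : ℝ, ∀ V : Submodule ℚ ℂ, Module.Finite ℚ V → Module.finrank ℚ V ≤ D → ∀ T : ℕ, 1 ≤ T →
      (integers m T).Finite ∧
      ({α : Fin k → ℂ | (∀ i, α i ∈ integers m T) ∧ ¬ Good h δ d V α}.ncard : ℝ) ≤
        C * (T : ℝ) ^ (-c) * ((integers m T).ncard : ℝ) ^ k ∧
      (Connected h → ({α : Fin k → ℂ | (∀ i, α i ∈ integers m T) ∧ ¬ VeryGood h δ d V α}.ncard : ℝ) ≤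
        C * (T : ℝ) ^ (-c) * ((integers m T).ncard : ℝ) ^ k) := by
  obtain ⟨c₁, hc₁, h₁⟩ := Pool.Agent.Y916.Sl.many m hm
  obtain ⟨c₂, hc₂, C₂, hC₂, h₂⟩ := Pool.Agent.Y916.Af.tupT2 Pool.Agent.Y916.Af.nr Pool.Agent.Y916.Af.t_br2 hG.fam
    k m δ d D
  have h₃ : ∃ c : ℝ, 0 < c ∧ ∃ C : ℝ, 0 ≤ C ∧ (Connected h → ∀ V : Submodule ℚ ℂ, Module.Finite ℚ V →
      Module.finrank ℚ V ≤ D → ∀ T : ℕ, 1 ≤ T →
      {α : Fin k → ℂ | (∀ i, Pool.Agent.Y916.Sl.AInt m T (α i)) ∧ Pool.Agent.Y916.Af.ExcC h δ d V α}.Finite ∧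
      ({α : Fin k → ℂ | (∀ i, Pool.Agent.Y916.Sl.AInt m T (α i)) ∧ Pool.Agent.Y916.Af.ExcC h δ d V α}.ncard : ℝ) ≤
        C * (T : ℝ) ^ (((k * Pool.Agent.Y916.Sl.Mm m : ℕ) : ℝ) - c)) := by
    by_cases hc : Connected h
    · obtain ⟨c, hc0, C, hC0, h3⟩ := Pool.Agent.Y916.Af.tupC Pool.Agent.Y916.Af.nr Pool.Agent.Y916.Af.t_br2
        Pool.Agent.Y916.Af.conn hG.fam hc k m δ d D
      exact ⟨c, hc0, C, hC0, fun _ => h3⟩
    · exact ⟨1, one_pos, 0, le_rfl, fun h => absurd h hc⟩
  obtain ⟨c₃, hc₃, C₃, hC₃, h₃⟩ := h₃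
  refine ⟨min c₂ c₃, lt_min hc₂ hc₃, (C₂ + C₃) / c₁ ^ k, fun V hV hVD T hT =>
    ⟨Pool.Agent.Y916.Sl.sint_fin m T, ?_, fun hcon => ?_⟩⟩
  · obtain ⟨hf, hle⟩ := h₂ V hV hVD T hT
    have hle' : ({α : Fin k → ℂ | (∀ i, Pool.Agent.Y916.Sl.AInt m T (α i)) ∧
        Pool.Agent.Y916.Af.ExcT h δ d V α}.ncard : ℝ) ≤
        (C₂ + C₃) * (T : ℝ) ^ (((k * Pool.Agent.Y916.Sl.Mm m : ℕ) : ℝ) - min c₂ c₃) := by
      refine hle.trans (mul_le_mul (by linarith) (Real.rpow_le_rpow_of_exponent_le (by exact_mod_cast hT) ?_)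
        (by positivity) (by positivity))
      linarith [min_le_left c₂ c₃]
    refine le_trans ?_ (hle'.trans (Pool.Agent.Y916.Sl.prop_bound hc₁ (by positivity) hT (h₁ T hT)))
    refine Nat.cast_le.2 (Set.ncard_le_ncard ?_ hf)
    rintro α ⟨hα1, hα2⟩
    refine ⟨fun i => Pool.Agent.Y916.Sl.SInt.aint (hα1 i), ?_⟩
    simp only [Good, HoldOn, not_forall] at hα2
    obtain ⟨ℓ, hℓ, Y, hY, hmem, hsub, L, hL1, hL2, P, hP1, hP2, hP3, y, hy, hyP⟩ := hα2
    exact ⟨ℓ, hℓ, Y, hY, hmem, fun y hy j => hsub hy j, L, hL1, hL2, P, hP1, hP2, hP3, y, hy, hyP⟩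
  · obtain ⟨hf, hle⟩ := h₃ hcon V hV hVD T hT
    have hle' : ({α : Fin k → ℂ | (∀ i, Pool.Agent.Y916.Sl.AInt m T (α i)) ∧
        Pool.Agent.Y916.Af.ExcC h δ d V α}.ncard : ℝ) ≤
        (C₂ + C₃) * (T : ℝ) ^ (((k * Pool.Agent.Y916.Sl.Mm m : ℕ) : ℝ) - min c₂ c₃) := by
      refine hle.trans (mul_le_mul (by linarith) (Real.rpow_le_rpow_of_exponent_le (by exact_mod_cast hT) ?_)
        (by positivity) (by positivity))
      linarith [min_le_right c₂ c₃]
    refine le_trans ?_ (hle'.trans (Pool.Agent.Y916.Sl.prop_bound hc₁ (by positivity) hT (h₁ T hT)))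
    refine Nat.cast_le.2 (Set.ncard_le_ncard ?_ hf)
    rintro α ⟨hα1, hα2⟩
    refine ⟨fun i => Pool.Agent.Y916.Sl.SInt.aint (hα1 i), ?_⟩
    simp only [VeryGood, HoldOn, not_forall] at hα2
    obtain ⟨ℓ, hℓ, L, hL1, hL2, P, hP1, hP2, hP3, y, hy, hyP⟩ := hα2
    exact ⟨ℓ, hℓ, L, hL1, hL2, P, hP1, hP2, hP3, y, hy, hyP⟩

end Pool.Agent.Results.MP_12eca1_ag.AlgebraicFibres
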