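import Pool.Agent.Y776.Fam.MainT
import Pool.Agent.Y776.Cv.Comp
import Pool.Agent.TH813.EKPer

/-!
# The period conjecture over arbitrary fields: families of 1-motives and iterated integrals at arbitrary points

Let `E_x : y² = 4 X³ - g₂(x) X - g₃(x)` be a family of elliptic curves whose invariants are algebraic functions of `x`
and whose `j` is not constant, let `P_1, …, P_r` be algebraic sections which are independent modulo torsion, and let
`t_1, …, t_s` be a tower of integrals: the derivative of `t_k` is algebraic over `ℂ(x, t_1, …, t_(k-1))`, and the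
functions `x, t_1, …, t_s` are algebraically independent. (Examples are integrals of the first, second and third kind
on fixed curves between points depending on `x`, and iterated integrals of algebraic differentials.) Then `ω₁, ω₂, η₁`
(`η₂` is determined by Legendre's relation), the elliptic logarithms `u_i` of `P_i`, the integrals of the second kind
`ζ(u_i)`, the logarithms `S_k` of `σ(∑ N_i u_i)` (third kind) and `t_k` are built from the periods of motives `M_x`.

The generalised period conjecture (André) is about motives over arbitrary subfields of `ℂ`. For an arbitrary complex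
number `x` it says that in general the field generated by `x` and the `N = 3 + 2 r + s + q` periods of `M_x` has
transcendence degree at least `N`, also over the field generated by `π`. We prove this in bounded degree for almost all
`x = h(z)`, where `h` is an arbitrary nonconstant analytic function (for instance an exponential, an elliptic function,
the Gamma function or an integral of another family) and `z` is in a number field: all but one of the `N + 1` numbers
`h(z)`, `ω₁, ω₂, η₁, u_i, ζ(u_i), t_k, S_k` at `x = h(z)` satisfy no approximate relation of bounded degree and of height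
`T^A`, with the exception of `C T^ε` points `z` of height at most `T` (all number fields of degree at most `m` together).
The same is proved for sums of motives `M_{1,h_1(z_1)}, …, M_{n,h_n(z_n)}` of `n` different families, with `C T^ε
N^(n-1)` exceptions. The coefficients of the relations are combinations of arbitrary complex numbers `ξ_1, …, ξ_g`, for
instance of the monomials up to a given degree in `π` and in the generators and periods of any other motive.
-/

set_option autoImplicit false

open NumberField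
open scoped PeriodPair

namespace Pool.Agent.Results.MP_12eca1_ag.ArbitraryBasePoints

/-- The Weierstrass zeta function `ζ(z) = ∑ (1/(z-l) + 1/l + z/l²)`, the sum over the lattice (the summand of `l = 0` is
`1/z`, since `1/0 = 0` in Lean). -/
noncomputable def ζ (L : PeriodPair) (z : ℂ) : ℂ :=
  ∑' l : L.lattice, (1 / (z - l) + 1 / l + z / l ^ 2)

/-- The Weierstrass sigma function `σ(z) = z ∏ (1 - z/l) exp(z/l + z²/(2 l²))`, the product over the lattice (the factor
of `l = 0` is `1`, since `z/0 = 0` in Lean). -/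
noncomputable def σ (L : PeriodPair) (z : ℂ) : ℂ :=
  z * ∏' l : L.lattice, ((1 - z / l) * Complex.exp (z / l + (z / l) ^ 2 / 2))

/-- The function `f` is algebraic over `ℂ(z)` on the set `U`. -/
def Algebraic (U : Set ℂ) (f : ℂ → ℂ) : Prop :=
  ∃ P : MvPolynomial (Fin 2) ℂ, P ≠ 0 ∧ ∀ z ∈ U, MvPolynomial.eval ![z, f z] P = 0

/-- A family of elliptic curves `ℂ / Λ_z` with points `P_i = (℘(u_i), ℘'(u_i))`, a tower of functions `t_k`, and
branches `S_k` of `log σ(∑ N_ki u_i)`. -/
structure Family (U : Set ℂ) (Λ : ℂ → PeriodPair) {r s q : ℕ} (u : Fin r → ℂ → ℂ) (t : Fin s → ℂ → ℂ)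
    (N : Fin q → Fin r → ℤ) (S : Fin q → ℂ → ℂ) : Prop where
  isOpen : IsOpen U
  isPreconnected : IsPreconnected U
  /-- the lattice depends analytically on `z` -/
  analytic₁ : AnalyticOnNhd ℂ (fun z => (Λ z).ω₁) U
  analytic₂ : AnalyticOnNhd ℂ (fun z => (Λ z).ω₂) U
  /-- the invariants are algebraic functions -/
  algebraic₂ : Algebraic U (fun z => (Λ z).g₂)
  algebraic₃ : Algebraic U (fun z => (Λ z).g₃)
  /-- `j` is not constant: `g₂³` and `g₃²` are linearly independent -/
  nonconstant : ∀ a b : ℂ, (∀ z ∈ U, a * (Λ z).g₂ ^ 3 = b * (Λ z).g₃ ^ 2) → a = 0 ∧ b = 0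
  /-- the points are given by analytic functions `u_i`; they are not zero and their coordinates are algebraic -/
  point : ∀ i, AnalyticOnNhd ℂ (u i) U
  point_ne : ∀ i, ∀ z ∈ U, u i z ∉ (Λ z).lattice
  point_alg : ∀ i, Algebraic U (fun z => ℘[Λ z] (u i z))
  /-- the points are independent modulo torsion -/
  point_ind : ∀ n : Fin r → ℤ, (∀ z ∈ U, ∑ i, (n i : ℂ) * u i z ∈ (Λ z).lattice) → n = 0
  /-- the derivative of the analytic function `t_k` is algebraic over `ℂ(z, t_1, …, t_(k-1))`: there is a nonzero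
  polynomial relation between `z`, the derivative, and `t_1, …, t_(k-1)` -/
  tower : ∀ k, AnalyticOnNhd ℂ (t k) U
  tower_deriv : ∀ k : Fin s, ∃ P : MvPolynomial (Fin 2 ⊕ Fin k) ℂ, P ≠ 0 ∧ ∀ z ∈ U,
    MvPolynomial.eval (Sum.elim ![z, deriv (t k) z] (fun j => t (Fin.castLE k.isLt.le j) z)) P = 0
  /-- the functions `z, t_1, …, t_s` are algebraically independent over `ℂ` -/
  tower_ind : ∀ P : MvPolynomial (Option (Fin s)) ℂ,
    (∀ z ∈ U, MvPolynomial.eval (fun o : Option (Fin s) => o.elim z (fun k => t k z)) P = 0) → P = 0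
  /-- `S_k` is a logarithm of `σ(∑ N_ki u_i)` -/
  sigma : ∀ k, AnalyticOnNhd ℂ (S k) U
  sigma_exp : ∀ k, ∀ z ∈ U, Complex.exp (S k z) = σ (Λ z) (∑ i, (N k i : ℂ) * u i z)
  /-- the quadratic forms `(∑ N_ki X_i)²` are linearly independent -/
  sigma_ind : ∀ c : Fin q → ℤ, (∀ i j, ∑ k, c k * (N k i * N k j) = 0) → c = 0

/-- The numbers `ω₁, ω₂, η₁ = 2 ζ(ω₁ / 2), u_i, ζ(u_i), t_k, S_k` at the point `z`. -/
noncomputable def periods (Λ : ℂ → PeriodPair) {r s q : ℕ} (u : Fin r → ℂ → ℂ) (t : Fin s → ℂ → ℂ)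
    (S : Fin q → ℂ → ℂ) (z : ℂ) : Fin 3 ⊕ (Fin r ⊕ (Fin r ⊕ (Fin s ⊕ Fin q))) → ℂ :=
  Sum.elim ![(Λ z).ω₁, (Λ z).ω₂, 2 * ζ (Λ z) ((Λ z).ω₁ / 2)] (Sum.elim (fun i => u i z)
    (Sum.elim (fun i => ζ (Λ z) (u i z)) (Sum.elim (fun k => t k z) (fun k => S k z))))

/-- A nonconstant analytic function on a connected open set with values in `V`. -/
structure Map (U V : Set ℂ) (h : ℂ → ℂ) : Prop where
  isOpen : IsOpen U
  isPreconnected : IsPreconnected U
  nonempty : U.Nonempty
  analytic : AnalyticOnNhd ℂ h U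
  mapsTo : ∀ z ∈ U, h z ∈ V
  nonconstant : ∀ c : ℂ, ∃ z ∈ U, h z ≠ c

/-- The number `x` and the periods at the point `x`. -/
noncomputable def value (Λ : ℂ → PeriodPair) {r s q : ℕ} (u : Fin r → ℂ → ℂ) (t : Fin s → ℂ → ℂ)
    (S : Fin q → ℂ → ℂ) (x : ℂ) (o : Option (Fin 3 ⊕ (Fin r ⊕ (Fin r ⊕ (Fin s ⊕ Fin q))))) : ℂ :=
  o.elim x (periods Λ u t S x)

/-- The elements of the number field `F` with image in `K` which are quotients of two integers of `F` all of whose
conjugates have absolute value at most `T`. -/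
def Points (F : Type) [Field F] [NumberField F] (ι : F →+* ℂ) (K : Set ℂ) (T : ℝ) : Set F :=
  {x | ι x ∈ K ∧ ∃ a b : 𝓞 F, b ≠ 0 ∧ (∀ φ : F →+* ℂ, ‖φ a‖ ≤ T ∧ ‖φ b‖ ≤ T) ∧ x = a / b}

/-- The `n`-tuples `x` of points of `F` for which there is a polynomial `P` of degree at most `d` in each variable, with
coefficients of the form `∑ ξ_i ι(c_i)`, where the `c_i` are integers of `F` all of whose conjugates have absolute value
at most `T ^ A`, such that the value of `P` at the numbers `v j (ι (x j)) i` is at most `T ^ (-B)` times the absolute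
value of some nonzero coefficient of `P`. -/
def Exceptional (n d : ℕ) {g : ℕ} {J : Fin n → Type} (v : ∀ j, ℂ → J j → ℂ) (F : Type) [Field F] [NumberField F]
    (ι : F →+* ℂ) (ξ : Fin g → ℂ) (K : Set ℂ) (A B T : ℝ) : Set (Fin n → F) :=
  {x | (∀ j, x j ∈ Points F ι K T) ∧ ∃ P : MvPolynomial (Σ j, J j) ℂ, (∀ y, P.degreeOf y ≤ d) ∧
    (∀ s, ∃ c : Fin g → 𝓞 F, (∀ i (φ : F →+* ℂ), ‖φ (c i)‖ ≤ T ^ A) ∧ P.coeff s = ∑ i, ξ i * ι (c i)) ∧
    ∃ s₀, P.coeff s₀ ≠ 0 ∧
      ‖MvPolynomial.aeval (fun y : Σ j, J j => v y.1 (ι (x y.1)) y.2) P‖ ≤ T ^ (-B) * ‖P.coeff s₀‖}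

/-- For `n` families over `V_1, …, V_n` and nonconstant analytic functions `h_j` on `U_j` with values in `V_j` (equal or
different) one can choose, for each `j`, all but one of the `4 + 2 r_j + s_j + q_j` functions `h_j(z)`, periods at
`h_j(z)`, such that for every compact set `K` contained in all `U_j`, and all `m`, `g`, `d`, `A` and `ε > 0` there are
`B`, `C`, `T₀` such that for every number field `F` of degree at most `m`, every embedding of `F` in `ℂ`, all complex
numbers `ξ_1, …, ξ_g` and all `T ≥ T₀` the number of `n`-tuples which are exceptional for the chosen functions is at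
most `C T^ε N^(n - 1)`, where `N` is the number of points. -/
theorem result {n : ℕ} {r s q : Fin n → ℕ} (V : Fin n → Set ℂ) (Λ : Fin n → ℂ → PeriodPair)
    (u : ∀ j, Fin (r j) → ℂ → ℂ) (t : ∀ j, Fin (s j) → ℂ → ℂ) (N : ∀ j, Fin (q j) → Fin (r j) → ℤ)
    (S : ∀ j, Fin (q j) → ℂ → ℂ) (hV : ∀ j, Family (V j) (Λ j) (u j) (t j) (N j) (S j))
    (U : Fin n → Set ℂ) (h : Fin n → ℂ → ℂ) (hU : ∀ j, Map (U j) (V j) (h j)) :
    ∃ e : ∀ j, Fin (3 + 2 * r j + s j + q j) →
        Option (Fin 3 ⊕ (Fin (r j) ⊕ (Fin (r j) ⊕ (Fin (s j) ⊕ Fin (q j))))), (∀ j, Function.Injective (e j)) ∧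
      ∀ K : Set ℂ, IsCompact K → (∀ j, K ⊆ U j) → ∀ (m g d : ℕ) (A ε : ℝ), 0 < ε →
        ∃ B C T₀ : ℝ, ∀ (F : Type) [Field F] [NumberField F], Module.finrank ℚ F ≤ m → ∀ (ι : F →+* ℂ)
          (ξ : Fin g → ℂ) (T : ℝ), T₀ ≤ T →
          (Exceptional n d (fun j z k => value (Λ j) (u j) (t j) (S j) (h j z) (e j k)) F ι ξ K A B T).Finite ∧
            ((Exceptional n d (fun j z k => value (Λ j) (u j) (t j) (S j) (h j z) (e j k)) F ι ξ K A B T).ncard : ℝ) ≤
              C * T ^ ε * ((Points F ι K T).ncard : ℝ) ^ (n - 1) := by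
  classical
  have hF : ∀ j, Y776.Fam.FmT (V j) (Λ j) (u j) (t j) (N j) (S j) := fun j =>
    ⟨{ isOpen := (hV j).isOpen, conn := (hV j).isPreconnected, an₁ := (hV j).analytic₁, an₂ := (hV j).analytic₂
       ni := (hV j).nonconstant, ag2 := (hV j).algebraic₂, ag3 := (hV j).algebraic₃, ua := (hV j).point
       un := (hV j).point_ne, uw := (hV j).point_alg, ui := (hV j).point_ind, la := fun k => k.elim0
       le := fun k => k.elim0, li := fun _ _ _ => Subsingleton.elim _ _
       Sa := (hV j).sigma, Se := (hV j).sigma_exp, Ni := (hV j).sigma_ind },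
      (hV j).tower, (hV j).tower_deriv, (hV j).tower_ind⟩
  have hper : ∀ j x i, Y776.Fam.yfam (Λ j) (u j) (t j) (S j) i x = periods (Λ j) (u j) (t j) (S j) x i := by
    intro j z i
    rcases i with a | i | i | k | k
    · fin_cases a
      · rfl
      · rfl
      · exact Pool.Agent.TH813.Ell.eta_half (Λ j z).ω₁_mem_lattice (Pool.Agent.TH813.Ell.half₁ (Λ j z))
    all_goals rfl
  let y : ∀ j, Option (Fin 3 ⊕ (Fin (r j) ⊕ (Fin (r j) ⊕ (Fin (s j) ⊕ Fin (q j))))) → ℂ → ℂ := fun j o x =>
    o.elim x (fun i => Y776.Fam.yfam (Λ j) (u j) (t j) (S j) i x)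
  have hy0 : ∀ j o, AnalyticOnNhd ℂ (y j o) (V j) := by
    rintro j (_ | i) z hz
    · exact analyticAt_id
    · exact Y776.Fam.yfam_anT (hF j) i z hz
  have hyi : ∀ j, Y776.Cv.FInd (U j) (fun o z => y j o (h j z)) := by
    intro j
    obtain ⟨w, hw⟩ := (hU j).nonempty
    have h1 : Y776.Cv.FInd (V j) (y j) := by
      intro P hP
      refine Y776.Fam.fam_locIndT (hF j) ((hU j).mapsTo w hw) P ?_
      filter_upwards [(hV j).isOpen.mem_nhds ((hU j).mapsTo w hw)] with z hz
      exact hP z hz
    exact Y776.Cv.FInd.comp (hV j).isPreconnected (hy0 j) h1 (hU j).isOpen (hU j).isPreconnected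
      (hU j).analytic (hU j).mapsTo (hU j).nonempty (hU j).nonconstant
  have hya : ∀ j o, AnalyticOnNhd ℂ (fun z => y j o (h j z)) (U j) := fun j o z hz =>
    AnalyticAt.fun_comp (g := y j o) (f := h j) (hy0 j o _ ((hU j).mapsTo z hz)) ((hU j).analytic z hz)
  have hsub : ∀ j, ∃ e : Fin (3 + 2 * r j + s j + q j) →
      Option (Fin 3 ⊕ (Fin (r j) ⊕ (Fin (r j) ⊕ (Fin (s j) ⊕ Fin (q j))))), Function.Injective e ∧
      ∀ t' ∈ U j, Y124.LocInd (fun k z => y j (e k) (h j z)) t' := fun j =>
    Y776.Cv.func_sub (hU j).isOpen (hU j).isPreconnected (hU j).nonempty (hya j) (hyi j) (by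
      simp only [Fintype.card_option, Fintype.card_sum, Fintype.card_fin]
      omega)
  choose e he hL using hsub
  have hv : ∀ j x o, value (Λ j) (u j) (t j) (S j) x o = y j o x := by
    rintro j x (_ | i)
    · rfl
    · exact (hper j x i).symm
  refine ⟨e, he, ?_⟩
  intro K hK hKU m g d A ε hε
  obtain ⟨B, C, T₀, hC, hT₀, H⟩ := Y776.Cv.nf_genS (η := Fin g) m n d
    (fun j => (hU j).isOpen) (fun j => (hU j).isPreconnected)
    (y := fun j k z => y j (e j k) (h j z)) (fun j k => hya j (e j k)) (fun j => hL j) hK hKU A ε hε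
  refine ⟨B, C, T₀, fun F _ _ hm ι ξ T hT => ?_⟩
  have hT0 : 0 ≤ T := by linarith
  have hP : Points F ι K T = {x : F | Y120.HtLe F T x ∧ ι x ∈ K} := by
    ext x
    constructor
    · rintro ⟨h1, a, b, hb, hab, hx⟩
      exact ⟨⟨a, b, hb, Y120.house_le F hT0 fun φ => (hab φ).1, Y120.house_le F hT0 fun φ => (hab φ).2, hx⟩, h1⟩
    · rintro ⟨⟨a, b, hb, ha, hb', hx⟩, h1⟩
      exact ⟨h1, a, b, hb, fun φ => ⟨(Y120.house_ge F _ φ).trans ha, (Y120.house_ge F _ φ).trans hb'⟩, hx⟩
  have key := H F hm ι ξ T hT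
    (Exceptional n d (fun j z k => value (Λ j) (u j) (t j) (S j) (h j z) (e j k)) F ι ξ K A B T) (by
    rintro x ⟨hx, P, hPd, hPc, s₀, hs₀, hs⟩
    refine ⟨fun j => ?_, P, hPd, hPc, s₀, hs₀, ?_⟩
    · have h1 := hx j
      rw [hP] at h1
      exact h1
    · simp only [hv] at hs
      exact hs)
  rw [hP]
  exact key

end Pool.Agent.Results.MP_12eca1_ag.ArbitraryBasePoints
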