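import Mathlib
import Pool.Agent.Y119.MT.Main

/-!
# The period conjecture for sequences of generic elliptic curves, with arbitrary points

`Λ c`, `c = 1, …, q`, are pairs of periods `ω₁, ω₂` (independent over `ℝ`), with the lattices
`Ω_c = (Λ c).lattice = ℤ ω₁ + ℤ ω₂` and the elliptic curves `E_c = ℂ / Ω_c`; `℘[L]`, `L.g₂`,
`L.g₃` are Mathlib's Weierstrass function and invariants of `L = Λ c`.  Every 1-motive
`M = [u : ℤⁿ → 𝔾ₘ^s × ∏ E_c^(g_c)]` over a field of complex numbers is given by the logarithms of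
the points `u(e_l)`: complex numbers `t_i` (for the coordinates in `𝔾ₘ`) and, for every `c`,
complex numbers `p_{c,i}` (for the coordinates in `E_c`).  The periods of `M` (together with the
invariants `g₂`, `g₃` and the coordinates `e^t`, `℘(p)` of the points, which belong to the field
of definition up to algebraic extensions) are the numbers in `per Λ ∪ pts Λ t p`.  If the curves
are pairwise non-isogenous, then the dimension of the motivic Galois group of `M` is
`galDim Λ t p`: this is the known formula `1 + ∑ (4 / [k_c : ℚ] - 1) + dim ⟨t⟩ + 2 ∑ dim ⟨p_c⟩`,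
where `k_c = ℚ ⊗ End(E_c)`, where `⟨t⟩` is the `ℚ`-span modulo `2πi ℚ`, and `⟨p_c⟩` the
`k_c`-span modulo `Ω_c ⊗ ℚ`.

The theorem: there is a closure operator `Φ` on the sets of complex numbers, with values in the
algebraically closed subfields closed under `exp`, such that closures of countable sets are
countable, and such that the conjecture holds for the 1-motives above as soon as the invariant
`j` of every curve is outside the closure of the numbers of the curves and points before it, for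
*all* points `p` and, if `s ≤ q`, all `t`.  For every `q` the exact relation with Schanuel's
conjecture is also determined.
-/

set_option autoImplicit false

open Module
open scoped PeriodPair

namespace Pool.Agent.Results.MP_12eca1_ag.GenericSequences

/-- The Weierstrass zeta function `ζ(z) = ∑ (1/(z-l) + 1/l + z/l²)`, the sum over the lattice (the
summand of `l = 0` is `1/z`, since `1/0 = 0` in Lean). -/
noncomputable def ζ (L : PeriodPair) (z : ℂ) : ℂ :=
  ∑' l : L.lattice, (1 / (z - l) + 1 / l + z / l ^ 2)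

/-- the field `k = ℚ ⊗ End(ℂ / Ω)` as a subfield of `ℂ`; see `mem_k` -/
noncomputable abbrev k (L : PeriodPair) : IntermediateField ℚ ℂ := Pool.Agent.TH813.Ell.kL L

/-- `k` consists of the numbers `c` such that `n c` maps the lattice to itself for some `n > 0` -/
theorem mem_k {L : PeriodPair} {c : ℂ} :
    c ∈ k L ↔ ∃ n : ℕ, 0 < n ∧ ∀ w ∈ L.lattice, (n * c) * w ∈ L.lattice := Iff.rfl

/-- `2πi ℚ` -/
noncomputable def T₀ : Submodule ℚ ℂ := Submodule.span ℚ {2 * Real.pi * Complex.I}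

/-- `Ω ⊗ ℚ` as a space over `k`; see `mem_P₀` -/
noncomputable abbrev P₀ (L : PeriodPair) : Submodule (k L) ℂ := Pool.Agent.TH813.Ell.P₂ L

/-- `Ω ⊗ ℚ` consists of the numbers which have a multiple in the lattice -/
theorem mem_P₀ {L : PeriodPair} {x : ℂ} :
    x ∈ P₀ L ↔ ∃ n : ℕ, 0 < n ∧ (n : ℂ) * x ∈ L.lattice := Iff.rfl

/-- the invariant `j` of the curve `y² = 4 x³ - g₂ x - g₃` -/
noncomputable def jInv (L : PeriodPair) : ℂ :=
  1728 * L.g₂ ^ 3 / (L.g₂ ^ 3 - 27 * L.g₃ ^ 2)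

/-- the transcendence degree over `K` of the field `K(S)` -/
noncomputable def trd (K : Type) [Field K] [Algebra K ℂ] (S : Set ℂ) : Cardinal :=
  Algebra.trdeg K (IntermediateField.adjoin K S)

/-- the dimension of the span of the classes of `z₁, …, zₙ` modulo `A` -/
noncomputable def dimMod {K : Type} [Field K] [Module K ℂ] (A : Submodule K ℂ) {n : ℕ}
    (z : Fin n → ℂ) : ℕ := finrank K (Submodule.span K (Set.range (fun i => A.mkQ (z i))))

/-- `g₂`, `g₃`, the periods and the quasi-periods `ηᵢ = 2 ζ(ωᵢ / 2)` -/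
noncomputable def inv (L : PeriodPair) : Set ℂ :=
  {L.g₂, L.g₃, L.ω₁, L.ω₂, 2 * ζ L (L.ω₁ / 2), 2 * ζ L (L.ω₂ / 2)}

/-- the numbers `p`, `℘(p)`, `ζ(p)` -/
noncomputable def pt (L : PeriodPair) {n : ℕ} (p : Fin n → ℂ) : Set ℂ :=
  Set.range p ∪ (℘[L] '' Set.range p ∪ ζ L '' Set.range p)

variable {q : ℕ}

/-- The curves `ℂ / Ω_c` are pairwise non-isogenous: there is no nonzero homomorphism from one to
another. -/
def NonIsog (Λ : Fin q → PeriodPair) : Prop :=
  ∀ c c', c ≠ c' → ∀ α : ℂ, (∀ w ∈ (Λ c).lattice, α * w ∈ (Λ c').lattice) → α = 0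

/-- `2πi`, and the invariants, periods and quasi-periods of all curves -/
noncomputable def per (Λ : Fin q → PeriodPair) : Set ℂ :=
  {2 * Real.pi * Complex.I} ∪ ⋃ c, inv (Λ c)

/-- the numbers `t`, `e^t`, and `p`, `℘(p)`, `ζ(p)` for the points `p` of all curves -/
noncomputable def pts (Λ : Fin q → PeriodPair) {s : ℕ} {n : Fin q → ℕ} (t : Fin s → ℂ)
    (p : ∀ c, Fin (n c) → ℂ) : Set ℂ :=
  (Set.range t ∪ Complex.exp '' Set.range t) ∪ ⋃ c, pt (Λ c) (p c)

/-- `1 + ∑ (4 / [k_c : ℚ] - 1) + dim ⟨t⟩ + 2 ∑ dim ⟨p_c⟩`, the dimension of the motivic Galois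
group; `4 / [k_c : ℚ] - 1` is `3` for a curve without complex multiplication and `1` otherwise -/
noncomputable def galDim (Λ : Fin q → PeriodPair) {s : ℕ} {n : Fin q → ℕ} (t : Fin s → ℂ)
    (p : ∀ c, Fin (n c) → ℂ) : ℕ :=
  1 + ∑ c, (4 / finrank ℚ (k (Λ c)) - 1) + dimMod T₀ t + 2 * ∑ c, dimMod (P₀ (Λ c)) (p c)

/-- the inequality of the conjecture for `(t, p)` -/
def Holds (Λ : Fin q → PeriodPair) {s : ℕ} {n : Fin q → ℕ} (t : Fin s → ℂ)
    (p : ∀ c, Fin (n c) → ℂ) : Prop :=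
  ((galDim Λ t p : ℕ) : Cardinal) ≤ trd ℚ (per Λ ∪ pts Λ t p)

/-- `Φ` is a closure operator with countable closures of countable sets; the closures are
algebraically closed fields which are closed under `exp` -/
structure Closure (Φ : Set ℂ → IntermediateField ℚ ℂ) : Prop where
  sub : ∀ S : Set ℂ, S ⊆ (Φ S : Set ℂ)
  le : ∀ S T : Set ℂ, S ⊆ (Φ T : Set ℂ) → Φ S ≤ Φ T
  countable : ∀ S : Set ℂ, S.Countable → (Φ S : Set ℂ).Countable
  alg : ∀ S x, IsAlgebraic (Φ S) x → x ∈ Φ S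
  exp : ∀ S, ∀ x ∈ Φ S, Complex.exp x ∈ Φ S

/-- The invariant `j` of every curve is outside the closure of `S` and the numbers of the curves
and points before it. -/
def Generic (Φ : Set ℂ → IntermediateField ℚ ℂ) (S : Set ℂ) (Λ : Fin q → PeriodPair)
    {n : Fin q → ℕ} (p : ∀ c, Fin (n c) → ℂ) : Prop :=
  ∀ c, jInv (Λ c) ∉ Φ (S ∪ ⋃ b, ⋃ (_ : b < c), (inv (Λ b) ∪ pt (Λ b) (p b)))

/-- the rational linear combinations of `2πi, t₁, …, t_s` which lie in `F` -/
noncomputable def inF (F : IntermediateField ℚ ℂ) {s : ℕ} (t : Fin s → ℂ) : Submodule ℚ ℂ :=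
  (T₀ ⊔ Submodule.span ℚ (Set.range t)) ⊓ Subalgebra.toSubmodule F.toSubalgebra

/-- Schanuel's conjecture with defect `q`: `trdeg ℚ(2πi, t, e^t) + q ≥ dim ⟨2πi, t⟩` for all `t`;
for `q = 0` this is Schanuel's conjecture (for `2πi, t`) -/
def Schanuel (q : ℕ) : Prop :=
  ∀ (s : ℕ) (t : Fin s → ℂ), ((dimMod T₀ t + 1 : ℕ) : Cardinal) ≤
    trd ℚ ({2 * Real.pi * Complex.I} ∪ (Set.range t ∪ Complex.exp '' Set.range t)) + (q : Cardinal)

section proofs

open Pool.Agent.TH813.Ell Pool.Agent.W669.Gel Pool.Agent.Y776 Pool.Agent.Y119.MT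
open Pool.Agent.Y685 H667R3 Pool.Agent.W245.EB
open Pool.Agent.TH813.Rel (MK toENat_trdeg le_iff subset_cl rk_le_of_subset_cl)

theorem inv_eq (L : PeriodPair) : inv L = GenL L := by
  have e1 : 2 * ζ L (L.ω₁ / 2) = eta L L.ω₁ := (eta_half L.ω₁_mem_lattice (half₁ L)).symm
  have e2 : 2 * ζ L (L.ω₂ / 2) = eta L L.ω₂ := (eta_half L.ω₂_mem_lattice (half₂ L)).symm
  unfold inv GenL
  rw [e1, e2]

theorem pt_eq (L : PeriodPair) {n : ℕ} {p : Fin n → ℂ} (hp : ∀ i, p i ∉ L.lattice) :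
    pt L p = EP L p := by
  have e3 : ζ L '' Set.range p = Set.range (fun i => zt L (p i)) := by
    rw [← Set.range_comp]
    congr 1
    funext i
    exact (if_neg (hp i)).symm
  have e4 : ℘[L] '' Set.range p = Set.range (fun i => ℘[L] (p i)) := (Set.range_comp _ _).symm
  unfold pt EP
  rw [e3, e4, Set.union_comm (Set.range fun i => ℘[L] (p i))]

theorem exp_eq {s : ℕ} (t : Fin s → ℂ) :
    Set.range t ∪ Complex.exp '' Set.range t = Y776.ET t := by
  unfold Y776.ET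
  rw [← Set.range_comp]
  rfl

variable {Λ : Fin q → PeriodPair} {n : Fin q → ℕ} {p : ∀ c, Fin (n c) → ℂ} {S : Set ℂ}

theorem gens (hp : ∀ c i, p c i ∉ (Λ c).lattice) {s : ℕ} (t : Fin s → ℂ) :
    per Λ ∪ pts Λ t p = {tpi} ∪ (Pool.Agent.Y119.MT.pv Λ p ∪ Y776.ET t) := by
  unfold per pts Pool.Agent.Y119.MT.pv nm
  rw [exp_eq]
  simp only [inv_eq, fun c => pt_eq (Λ c) (hp c), Set.iUnion_union_distrib]
  ext x
  simp only [Set.mem_union]
  unfold tpi
  tauto

theorem generic_iff (hp : ∀ c i, p c i ∉ (Λ c).lattice) (h : Generic Φ S Λ p) (c : Fin q) :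
    jv (Λ c) ∉ Φ (be Λ p S c) := by
  have h1 := h c
  simp only [inv_eq, fun c => pt_eq (Λ c) (hp c)] at h1
  exact h1

theorem trd_of_rank {K : Type} [Field K] [Algebra K ℂ] {B : Set ℂ} {a : ℕ}
    (h : (MK K).eRk B = (a : ℕ∞)) : trd K B = (a : Cardinal) := by
  have h1 := toENat_trdeg (k := K) B
  rw [h] at h1
  exact Cardinal.toENat_eq_natCast.1 h1

theorem galDim_le (s : ℕ) (t : Fin s → ℂ) :
    galDim Λ t p + q ≤ dt t + 4 * q + 2 * ∑ c, dp (Λ c) (p c) + 1 := by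
  have h1 : ∑ c : Fin q, (4 / finrank ℚ (k (Λ c)) - 1) ≤ ∑ c : Fin q, 3 := by
    refine Finset.sum_le_sum fun c _ => ?_
    have := Nat.div_le_self 4 (finrank ℚ (k (Λ c)))
    omega
  rw [Finset.sum_const, Finset.card_univ, Fintype.card_fin, smul_eq_mul] at h1
  have h2 : galDim Λ t p = 1 + ∑ c, (4 / finrank ℚ (k (Λ c)) - 1) + dt t +
    2 * ∑ c, dp (Λ c) (p c) := rfl
  rw [h2]
  omega

/-- the rank inequality for all fields -/
theorem rank_all (hq : 0 < q) (hp : ∀ c i, p c i ∉ (Λ c).lattice) (h : Generic Φ S Λ p)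
    {K : Type} [Field K] [Algebra K ℂ] (hK : ∀ x : K, algebraMap K ℂ x ∈ Φ S) {s : ℕ}
    (t : Fin s → ℂ) :
    (MK K).eRk ((inF (Φ S) t : Set ℂ) ∪ Complex.exp '' (inF (Φ S) t : Set ℂ)) +
      ((galDim Λ t p + q : ℕ) : ℕ∞) ≤
        (MK K).eRk (per Λ ∪ pts Λ t p) + ((finrank ℚ (inF (Φ S) t) : ℕ) : ℕ∞) := by
  have hE : FR K ≤ Φ S := by
    rintro _ ⟨x, rfl⟩
    exact hK x
  have h1 := gen_rank (Λ := Λ) (p := p) hq (generic_iff hp h) hE t
  rw [MK_FR K] at h1
  refine le_trans ?_ (h1.trans (add_le_add ((MK K).eRk_mono ?_) le_rfl))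
  · refine add_le_add le_rfl ?_
    exact_mod_cast galDim_le s t
  · rw [gens hp]
    exact Set.subset_union_right

theorem fin_gens (hp : ∀ c i, p c i ∉ (Λ c).lattice) {s : ℕ} (t : Fin s → ℂ) :
    (per Λ ∪ pts Λ t p).Finite := by
  rw [gens hp]
  exact (Set.finite_singleton _).union ((pv_finite Λ p).union (ET_finite t))

/-- the inequality for all fields -/
theorem trd_all (hq : 0 < q) (hp : ∀ c i, p c i ∉ (Λ c).lattice) (h : Generic Φ S Λ p)
    {K : Type} [Field K] [Algebra K ℂ] (hK : ∀ x : K, algebraMap K ℂ x ∈ Φ S) {s : ℕ}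
    (t : Fin s → ℂ) :
    trd K ((inF (Φ S) t : Set ℂ) ∪ Complex.exp '' (inF (Φ S) t : Set ℂ)) +
      ((galDim Λ t p + q : ℕ) : Cardinal) ≤
        trd K (per Λ ∪ pts Λ t p) + ((finrank ℚ (inF (Φ S) t) : ℕ) : Cardinal) := by
  have h1 := rank_all hq hp h hK t
  obtain ⟨g, hg⟩ := rk_fin (k := K) (fin_gens hp t)
  rw [hg] at h1
  have h2 : (MK K).eRk ((inF (Φ S) t : Set ℂ) ∪ Complex.exp '' (inF (Φ S) t : Set ℂ)) ≠ ⊤ := by
    intro h0
    rw [h0, top_add, top_le_iff] at h1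
    exact ENat.natCast_ne_top (g + finrank ℚ (inF (Φ S) t)) (by push_cast; exact h1)
  obtain ⟨a, ha⟩ := ENat.ne_top_iff_exists.1 h2
  rw [← ha] at h1
  rw [trd_of_rank hg, trd_of_rank ha.symm]
  norm_cast at h1 ⊢

theorem trd_add (K E A : Type) [Field K] [Field E] [Field A] [Algebra K E] [Algebra E A]
    [Algebra K A] [IsScalarTower K E A] :
    Algebra.trdeg K A = Algebra.trdeg K E + Algebra.trdeg E A := (trdeg_add_eq K E).symm

/-- transcendence degrees in a tower -/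
theorem trd_union (K : Type) [Field K] [Algebra K ℂ] (Z B : Set ℂ) :
    trd K (Z ∪ B) = trd K Z + trd (IntermediateField.adjoin K Z) B := by
  unfold trd
  rw [← trd_add K (IntermediateField.adjoin K Z)
    (IntermediateField.adjoin (IntermediateField.adjoin K Z) B),
    ← IntermediateField.adjoin_adjoin_left K Z B]
  rfl

theorem adjoin_mem {K : Type} [Field K] [Algebra K ℂ] (hK : ∀ x : K, algebraMap K ℂ x ∈ Φ S)
    {Z : Set ℂ} (hZ : Z ⊆ Φ S) (x : IntermediateField.adjoin K Z) : (x : ℂ) ∈ Φ S := by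
  obtain ⟨x, hx⟩ := x
  change x ∈ Φ S
  induction hx using IntermediateField.adjoin_induction with
  | mem x hx => exact hZ hx
  | algebraMap c => exact hK c
  | add x y _ _ hx hy => exact add_mem hx hy
  | inv x _ hx => exact inv_mem hx
  | mul x y _ _ hx hy => exact mul_mem hx hy

theorem T₀_le {s : ℕ} (t : Fin s → ℂ) : T₀ ≤ inF (Φ S) t := by
  refine le_inf le_sup_left ?_
  unfold T₀
  rw [Submodule.span_le]
  rintro _ rfl
  exact Φ_pi S

instance {s : ℕ} (t : Fin s → ℂ) : FiniteDimensional ℚ (inF (Φ S) t) := by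
  have h : inF (Φ S) t ≤ VT t := inf_le_left
  exact Submodule.finiteDimensional_of_le h

theorem finrank_inF_le {s : ℕ} (t : Fin s → ℂ) : finrank ℚ (inF (Φ S) t) ≤ 1 + s := by
  have h1 : finrank ℚ (inF (Φ S) t) ≤ finrank ℚ (VT t) := Submodule.finrank_mono inf_le_left
  have h2 : FiniteDimensional ℚ (Submodule.span ℚ (Set.range t)) :=
    FiniteDimensional.span_of_finite ℚ (Set.finite_range t)
  refine h1.trans ((Submodule.finrank_add_le_finrank_add_finrank _ _).trans ?_)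
  rw [finrank_P₁]
  have h3 := finrank_range_le_card (R := ℚ) t
  rw [Fintype.card_fin] at h3
  have h4 : finrank ℚ (Submodule.span ℚ (Set.range t)) ≤ s := h3
  omega

/-- the inequality from Schanuel's inequality with defect `q` -/
theorem holds_of (hq : 0 < q) (hp : ∀ c i, p c i ∉ (Λ c).lattice) (h : Generic Φ S Λ p) {s : ℕ}
    (t : Fin s → ℂ) (hS : ((finrank ℚ (inF (Φ S) t) : ℕ) : ℕ∞) ≤
      (MK ℚ).eRk ((inF (Φ S) t : Set ℂ) ∪ Complex.exp '' (inF (Φ S) t : Set ℂ)) + (q : ℕ∞)) :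
    Holds Λ t p := by
  have h1 := rank_all (K := ℚ) hq hp h (fun x => (Φ S).algebraMap_mem x) t
  obtain ⟨g, hg⟩ := rk_fin (k := ℚ) (fin_gens hp t)
  rw [hg] at h1
  have h2 : (MK ℚ).eRk ((inF (Φ S) t : Set ℂ) ∪ Complex.exp '' (inF (Φ S) t : Set ℂ)) ≠ ⊤ := by
    intro h0
    rw [h0, top_add, top_le_iff] at h1
    exact ENat.natCast_ne_top (g + finrank ℚ (inF (Φ S) t)) (by push_cast; exact h1)
  obtain ⟨a, ha⟩ := ENat.ne_top_iff_exists.1 h2
  rw [← ha] at h1 hS
  unfold Holds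
  rw [trd_of_rank hg]
  norm_cast at h1 hS ⊢
  omega

theorem one_le {s : ℕ} (t : Fin s → ℂ) :
    1 ≤ (MK ℚ).eRk ((inF (Φ S) t : Set ℂ) ∪ Complex.exp '' (inF (Φ S) t : Set ℂ)) := by
  apply one_le_rank
  exact Or.inl (T₀_le t (Submodule.mem_span_singleton_self _))

theorem small {s : ℕ} (t : Fin s → ℂ) (h : finrank ℚ (inF (Φ S) t) ≤ q + 1) :
    ((finrank ℚ (inF (Φ S) t) : ℕ) : ℕ∞) ≤
      (MK ℚ).eRk ((inF (Φ S) t : Set ℂ) ∪ Complex.exp '' (inF (Φ S) t : Set ℂ)) + (q : ℕ∞) := by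
  have h2 : ((finrank ℚ (inF (Φ S) t) : ℕ) : ℕ∞) ≤ ((1 + q : ℕ) : ℕ∞) := by
    exact_mod_cast (by omega : finrank ℚ (inF (Φ S) t) ≤ 1 + q)
  refine h2.trans ?_
  push_cast
  exact add_le_add (one_le t) le_rfl

theorem of_Schanuel (hS : Schanuel q) {s : ℕ} (t : Fin s → ℂ) :
    ((finrank ℚ (inF (Φ S) t) : ℕ) : ℕ∞) ≤
      (MK ℚ).eRk ((inF (Φ S) t : Set ℂ) ∪ Complex.exp '' (inF (Φ S) t : Set ℂ)) + (q : ℕ∞) := by
  let b := finBasis ℚ (inF (Φ S) t)
  have h1 := hS _ (fun i => (b i : ℂ))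
  have h2 : Submodule.span ℚ (Set.range (fun i => (b i : ℂ))) = inF (Φ S) t := by
    have h3 : Set.range (fun i => (b i : ℂ)) = (inF (Φ S) t).subtype '' Set.range b := by
      rw [← Set.range_comp]
      rfl
    rw [h3, Submodule.span_image, b.span_eq, Submodule.map_top, Submodule.range_subtype]
  have h3 : dimMod T₀ (fun i => (b i : ℂ)) + 1 = finrank ℚ (inF (Φ S) t) := by
    have h4 := finrank_mod P₁ (fun i => (b i : ℂ))
    rw [finrank_P₁, h2] at h4
    have h5 : P₁ ⊔ inF (Φ S) t = inF (Φ S) t := sup_eq_right.2 (T₀_le t)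
    rw [h5] at h4
    exact h4
  have hfin : ({2 * Real.pi * Complex.I} ∪ (Set.range (fun i => (b i : ℂ)) ∪
      Complex.exp '' Set.range (fun i => (b i : ℂ))) : Set ℂ).Finite :=
    Set.Finite.union (Set.toFinite _) (Set.Finite.union
        (Set.finite_range _) ((Set.finite_range _).image _))
  obtain ⟨g, hg⟩ := rk_fin (k := ℚ) hfin
  rw [h3, trd_of_rank hg] at h1
  have h4 : ((finrank ℚ (inF (Φ S) t) : ℕ) : ℕ∞) ≤ (g : ℕ∞) + (q : ℕ∞) := by
    norm_cast at h1 ⊢
  refine h4.trans (add_le_add ?_ le_rfl)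
  rw [← hg]
  apply (MK ℚ).eRk_mono
  rintro x (rfl | ⟨i, rfl⟩ | ⟨_, ⟨i, rfl⟩, rfl⟩)
  · exact Or.inl (T₀_le t (Submodule.mem_span_singleton_self _))
  · exact Or.inl (b i).2
  · exact Or.inr ⟨_, (b i).2, rfl⟩

/-- Schanuel's conjecture with defect `q` from the conjecture for normalized lattices -/
theorem Schanuel_of (hp : ∀ c i, p c i ∉ (Λ c).lattice) (hω : ∀ c, (Λ c).ω₁ = 1)
    (hn : ∀ c, n c = 0) (hk : ∀ c, finrank ℚ (k (Λ c)) = 1)
    (h : ∀ (s : ℕ) (t : Fin s → ℂ), Holds Λ t p) : Schanuel q := by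
  intro s t
  have h1 := h s t
  unfold Holds at h1
  have h2 := (le_iff (k := ℚ) _ _).1 h1
  rw [gens hp] at h2
  have h3 := h2.trans (rank_norm_q hω hn t)
  have hfin : ({2 * Real.pi * Complex.I} ∪ (Set.range t ∪ Complex.exp '' Set.range t) :
      Set ℂ).Finite := Set.Finite.union (Set.toFinite _) (Set.Finite.union
        (Set.finite_range _) ((Set.finite_range _).image _))
  obtain ⟨g, hg⟩ := rk_fin (k := ℚ) hfin
  rw [trd_of_rank hg]
  rw [← exp_eq] at h3
  unfold tpi at h3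
  rw [hg] at h3
  have h4 : 1 + 3 * q + dimMod T₀ t ≤ galDim Λ t p := by
    have h5 : ∑ c : Fin q, (4 / finrank ℚ (k (Λ c)) - 1) = 3 * q := by
      rw [Finset.sum_congr rfl (fun c _ => by rw [hk c] : ∀ c ∈ Finset.univ,
        (4 / finrank ℚ (k (Λ c)) - 1) = 4 / 1 - 1)]
      rw [Finset.sum_const, Finset.card_univ, Fintype.card_fin, smul_eq_mul]
      omega
    unfold galDim
    rw [h5]
    omega
  norm_cast at h3 ⊢
  omega

theorem closure_Φ : Closure Φ where
  sub := sub_Φ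
  le := fun _ _ h => Φ_mono h
  countable := fun _ h => Φ_countable h
  alg := Φ_alg
  exp := Φ_exp

end proofs

/-- **Main result.** -/
theorem result : ∃ Φ : Set ℂ → IntermediateField ℚ ℂ, Closure Φ ∧
    ∀ (S : Set ℂ) (q : ℕ) (Λ : Fin q → PeriodPair) (n : Fin q → ℕ) (p : ∀ c, Fin (n c) → ℂ),
      0 < q → (∀ c i, p c i ∉ (Λ c).lattice) → Generic Φ S Λ p →
      NonIsog Λ ∧
      -- the inequality, relative to all subfields and subsets of `Φ S`
      (∀ (K : Type) [Field K] [Algebra K ℂ], (∀ x : K, algebraMap K ℂ x ∈ Φ S) →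
        ∀ Z : Set ℂ, Z ⊆ Φ S → ∀ (s : ℕ) (t : Fin s → ℂ),
        trd K (Z ∪ ((inF (Φ S) t : Set ℂ) ∪ Complex.exp '' (inF (Φ S) t : Set ℂ))) +
          ((galDim Λ t p + q : ℕ) : Cardinal) ≤
            trd K (Z ∪ (per Λ ∪ pts Λ t p)) + ((finrank ℚ (inF (Φ S) t) : ℕ) : Cardinal)) ∧
      -- the inequality of the conjecture
      (∀ (s : ℕ) (t : Fin s → ℂ),
        (s ≤ q ∨ (∀ i, IsAlgebraic ℚ (t i)) ∨ finrank ℚ (inF (Φ S) t) ≤ q + 1) →
          Holds Λ t p) ∧
      -- the conjecture for all `t`, and Schanuel's conjecture with defect `q`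
      (Schanuel q → ∀ (s : ℕ) (t : Fin s → ℂ), Holds Λ t p) ∧
      ((∀ c, (Λ c).ω₁ = 1) → (∀ c, n c = 0) →
        ((∀ (s : ℕ) (t : Fin s → ℂ), Holds Λ t p) ↔ Schanuel q)) := by
  refine ⟨Pool.Agent.Y119.MT.Φ, closure_Φ, fun S q Λ n p hq hp h => ?_⟩
  have hg := generic_iff hp h
  have hSC : Schanuel q → ∀ (s : ℕ) (t : Fin s → ℂ), Holds Λ t p := fun hS s t =>
    holds_of hq hp h t (of_Schanuel hS t)
  refine ⟨Pool.Agent.Y119.MT.non_isog hg, fun K _ _ hK Z hZ s t => ?_, ?_, hSC, ?_⟩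
  · rw [trd_union K Z, trd_union K Z, add_assoc, add_assoc]
    refine add_le_add le_rfl ?_
    exact trd_all hq hp h (K := IntermediateField.adjoin K Z) (adjoin_mem hK hZ) t
  · rintro s t (hs | ht | hd)
    · exact holds_of hq hp h t (small t ((finrank_inF_le t).trans (by omega)))
    · refine holds_of hq hp h t ((Pool.Agent.Y776.rank_LW (T₀_le t) ?_).trans ?_)
      · refine inf_le_left.trans (sup_le le_sup_left ?_)
        rw [Submodule.span_le]
        rintro _ ⟨i, rfl⟩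
        exact Submodule.mem_sup_right (Pool.Agent.Y776.mem_Qb.2 (ht i))
      · refine add_le_add le_rfl ?_
        exact_mod_cast hq
    · exact holds_of hq hp h t (small t hd)
  · intro hω hn
    refine ⟨fun hC => Schanuel_of hp hω hn (fun c => ?_) hC, hSC⟩
    exact Pool.Agent.Y776.finrank_kL (Pool.Agent.Y119.MT.Φ_alg _)
      (Pool.Agent.Y119.MT.Φ_ratio (hg c))

end Pool.Agent.Results.MP_12eca1_ag.GenericSequences
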