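import Pool.Agent.Y118.HG.Kfin

/-!
# Periods of almost all products of hyperelliptic curves relative to arbitrary constants, all heights

`f_1, …, f_N ∈ ℚ[X]` are monic of degree `n = 2g` with `n` distinct real roots, all different from `0`, and `C_j(t)` is
the curve `y² = f_j(x) (x - 1/t)` of genus `g`, `t` a positive integer. Let `V` be any `ℚ`-subspace of `ℂ` of dimension
`≤ D`, for example the space of the polynomials of bounded degree in the generators of a subfield `k` of `ℂ` and in the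
periods of a fixed motive `M₀` over `k`. For all but `O(T^(N-c))` of the `N`-tuples of integers `t_j ≤ T`, with constants
which depend on `V` only through `D`, every polynomial relation of degree `≤ d` with coefficients in `V` between the
periods of the curves `C_j(t_j)` holds on the whole torsor `{X_j Q_j X_jᵀ = 2πi J}` under the product of the symplectic
groups. So in bounded degree (and without any bound on heights) the André-Grothendieck period conjecture passes from
`M₀` to `M₀ ⊕ ⨁ h¹(C_j(t_j))` with the greatest possible surplus.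
-/

set_option autoImplicit false

open Polynomial

namespace Pool.Agent.Results.MP_12eca1_ag.RelativeHyperelliptic

variable {n N : ℕ}

/-- the branch points: `t` inserted at place `m` in the sequence of the `a i` -/
noncomputable def branch (a : Fin n → ℝ) (m : Fin (n + 1)) (t : ℝ) : Fin (n + 1) → ℝ :=
  Fin.insertNth (α := fun _ => ℝ) m t a

/-- the period `∮ x^j dx / y`, `y² = ∏ (x - e i)`, over the loop around the segment `[e l, e (l + 1)]`, that is twice
the integral over the segment (principal branch of the square root) -/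
noncomputable def period (e : Fin (n + 1) → ℝ) (l j : Fin n) : ℂ :=
  2 * ∫ x in (e l.castSucc)..(e l.succ), (x : ℂ) ^ (j : ℕ) / (((∏ i, (x - e i) : ℝ) : ℂ) ^ (1 / 2 : ℂ))

/-- the polarisation in terms of the forms `x^j dx / y`, `y² = F(x) = ∑ c_k x^k`: entries `(i - j)/2 * c_(i+j+2)` -/
noncomputable def polDR (n : ℕ) (F : ℚ[X]) : Matrix (Fin n) (Fin n) ℚ :=
  Matrix.of fun i j => (((i : ℕ) : ℚ) - ((j : ℕ) : ℚ)) / 2 * F.coeff ((i : ℕ) + (j : ℕ) + 2)

/-- the polarisation in terms of the loops: `2 (-1)^r` at `(r, s)`, `|r - s| = 1` -/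
def polB (n : ℕ) : Matrix (Fin n) (Fin n) ℚ :=
  Matrix.of fun r s => if (r : ℕ) = s + 1 ∨ (s : ℕ) = r + 1 then 2 * (-1) ^ (r : ℕ) else 0

/-- the entries of the matrices `X j` -/
def entries (X : Fin N → Matrix (Fin n) (Fin n) ℂ) : Fin N × Fin n × Fin n → ℂ := fun x => X x.1 x.2.1 x.2.2

/-- the torsor under the product of the symplectic groups given by the polarisations of the curves `y² = F_j(x)`:
matrices `X_j` with `X_j polDR(F_j) X_jᵀ = 2πi polB` -/
def Fibre (F : Fin N → ℚ[X]) : Set (Fin N → Matrix (Fin n) (Fin n) ℂ) :=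
  {X | ∀ j, X j * (polDR n (F j)).map (algebraMap ℚ ℂ) * (X j).transpose =
    (2 * Real.pi * Complex.I : ℂ) • (polB n).map (algebraMap ℚ ℂ)}

open Pool.Agent.Y118.HG Pool.Agent.Y118.HP in
lemma mem_Fibre (f : Fin N → ℚ[X]) (t : Fin N → ℚ) (Y : Fin N → Matrix (Fin n) (Fin n) ℂ) :
    Y ∈ Fibre (fun j => f j * (X - C (t j))) ↔
      Y ∈ Fib (fun j => (Qp n (f j)).map (aeval (t j : ℂ))) := by
  have h0 : (2 * Real.pi * Complex.I : ℂ) ≠ 0 := by
    have := Complex.I_ne_zero
    have h2 : (Real.pi : ℂ) ≠ 0 := by exact_mod_cast Real.pi_ne_zero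
    exact mul_ne_zero (mul_ne_zero two_ne_zero h2) this
  have h1 : Y ∈ Fibre (fun j => f j * (X - C (t j))) ↔
      (Y, (2 * Real.pi * Complex.I : ℂ)) ∈ TorF (n := n) (fun j => f j * (X - C (t j))) :=
    ⟨fun h => ⟨h0, h⟩, fun h => h.2⟩
  rw [h1, TorF_eq]
  exact ⟨fun h => h.2, fun h => ⟨h0, h⟩⟩

open Pool.Agent.Y118.HG Pool.Agent.Y118.HP in
/-- Let `f_j ∈ ℚ[X]`, `j < N`, be monic of even degree `n` with distinct real roots `a_j`, all different from `0`; `m_j` is
the place of `0` among the roots. For all `D`, `d` there are `c > 0`, `M` such that for every `ℚ`-subspace `V` of `ℂ` of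
dimension `≤ D` and all `T ≥ 1`, all but `M T^(N-c)` of the `N`-tuples of integers `1 ≤ t_j ≤ T` satisfy: the `1 / t_j`
are in the same gaps, the period matrices of the curves `y² = f_j(x) (x - 1/t_j)` are on the torsor `Fibre`, and every
polynomial of degree `≤ d` with coefficients in `V` which vanishes at the period matrices vanishes on the torsor. -/
theorem result (hn : Even n) (a : Fin N → Fin n → ℝ) (f : Fin N → ℚ[X])
    (hf : ∀ j, (f j).map (algebraMap ℚ ℝ) = ∏ i, (X - C (a j i))) (m : Fin N → Fin (n + 1))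
    (h0 : ∀ j, StrictMono (branch (a j) (m j) 0)) (D d : ℕ) :
    ∃ c M : ℝ, 0 < c ∧ ∀ V : Submodule ℚ ℂ, Module.Finite ℚ V → Module.finrank ℚ V ≤ D →
      ∀ T : ℕ, 1 ≤ T → ∃ S : Finset (Fin N → ℕ), (S.card : ℝ) ≤ M * (T : ℝ) ^ ((N : ℝ) - c) ∧
        ∀ t : Fin N → ℕ, (∀ j, 1 ≤ t j ∧ t j ≤ T) → t ∉ S →
          (∀ j, StrictMono (branch (a j) (m j) (1 / (t j : ℝ)))) ∧
          (fun j => Matrix.of (period (branch (a j) (m j) (1 / (t j : ℝ))))) ∈
            Fibre (n := n) (fun j => f j * (X - C (1 / (t j : ℚ)))) ∧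
          ∀ P : MvPolynomial (Fin N × Fin n × Fin n) ℂ, P.totalDegree ≤ d → (∀ s, P.coeff s ∈ V) →
            MvPolynomial.eval (entries fun j => Matrix.of (period (branch (a j) (m j) (1 / (t j : ℝ))))) P = 0 →
            ∀ Y ∈ Fibre (n := n) (fun j => f j * (X - C (1 / (t j : ℚ)))), MvPolynomial.eval (entries Y) P = 0 := by
  have ha : ∀ j, StrictMono (a j) := fun j => (inGap_of_er (h0 j)).1
  have hg0 : ∀ j, InGap (a j) (m j) 0 := fun j => (inGap_of_er (h0 j)).2
  obtain ⟨c, hc, M, -, hmain⟩ := vver hn a ha m f hg0 hf D d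
  refine ⟨c, M, hc, fun V hV hVD T hT => ?_⟩
  obtain ⟨S, hS1, hS2⟩ := hmain V hV hVD T hT
  refine ⟨S, hS1, fun t ht htS => ?_⟩
  obtain ⟨hgap, hP⟩ := hS2 t ht htS
  have hcast : ∀ j, (((1 / (t j : ℚ) : ℚ)) : ℝ) = 1 / (t j : ℝ) := fun j => by push_cast; rfl
  have hpt : (fun j => Matrix.of (period (branch (a j) (m j) (1 / (t j : ℝ))))) =
      fun j => CM (a j) (m j) (((1 / (t j : ℚ) : ℚ)) : ℝ) := by
    funext j
    rw [hcast]
    rfl
  refine ⟨fun j => ?_, ?_, ?_⟩
  · have := er_of_inGap (ha j) (hgap j)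
    rwa [hcast] at this
  · rw [mem_Fibre, hpt]
    exact fun j => CM_mem hn (ha j) (hf j) (hgap j)
  · intro P hd hPV hPv Y hY
    rw [mem_Fibre] at hY
    rw [hpt] at hPv
    have h1 := hP P hd hPV (by rw [MvPolynomial.aeval_eq_eval]; exact hPv) Y hY
    rw [MvPolynomial.aeval_eq_eval] at h1
    exact h1

end Pool.Agent.Results.MP_12eca1_ag.RelativeHyperelliptic
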